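import Mathlib

/-!
A symmetric even T0 matrix of size `12 × 12` that is not the CN matrix of any braid projection.
-/

namespace Pool.Agent.Results.MP_550572_gt.UnrealizableMatrix

/-- A braid projection on `m + 1` strands, given by the list of its crossings from top to bottom:
the letter `p : Fin m` is a crossing of the strands that are currently at the positions `p` and
`p + 1`. -/
abbrev BraidProjection (m : ℕ) := List (Fin m)

/-- The arrangement of the strands below all crossings of the list: it sends a position to the
strand that is at this position. -/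
def arrangement {m : ℕ} (B : BraidProjection m) : Equiv.Perm (Fin (m + 1)) :=
  (B.map fun p => Equiv.swap p.castSucc p.succ).prod

/-- The crossing number `s` (counted from `0`) of `B` is a crossing of the strands `i` and `j`. -/
def Crosses {m : ℕ} (B : BraidProjection m) (s : ℕ) (i j : Fin (m + 1)) : Prop :=
  ∃ p : Fin m, B[s]? = some p ∧
    ((arrangement (B.take s) p.castSucc = i ∧ arrangement (B.take s) p.succ = j) ∨
      (arrangement (B.take s) p.castSucc = j ∧ arrangement (B.take s) p.succ = i))

open Classical in
/-- The CN matrix: the entry `(i, j)` is the number of crossings of strand `i` with strand `j`. -/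
noncomputable def CN {m : ℕ} (B : BraidProjection m) : Matrix (Fin (m + 1)) (Fin (m + 1)) ℕ :=
  Matrix.of fun i j => ((Finset.range B.length).filter fun s => Crosses B s i j).card

/-- `M` has zero diagonal, and `M i j = M j k = 0` with `i < j < k` implies `M i k = 0`. -/
def IsT0 {n : ℕ} (M : Matrix (Fin n) (Fin n) ℕ) : Prop :=
  (∀ i, M i i = 0) ∧ ∀ i j k, i < j → j < k → M i j = 0 → M j k = 0 → M i k = 0

/-- position of strand `i` before the crossing number `t` -/
def pos {m : ℕ} (B : BraidProjection m) (t : ℕ) (i : Fin (m + 1)) : Fin (m + 1) :=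
  (arrangement (B.take t))⁻¹ i

lemma pos_zero {m : ℕ} (B : BraidProjection m) (i : Fin (m + 1)) : pos B 0 i = i := by
  simp [pos, arrangement]

lemma pos_succ {m : ℕ} (B : BraidProjection m) (t : ℕ) (p : Fin m) (h : B[t]? = some p)
    (i : Fin (m + 1)) : pos B (t + 1) i = Equiv.swap p.castSucc p.succ (pos B t i) := by
  unfold pos
  have h1 : B.take (t + 1) = B.take t ++ [p] := by
    rw [List.take_add_one, h]; rfl
  rw [h1]
  unfold arrangement
  rw [List.map_append, List.prod_append]
  simp only [List.map_cons, List.map_nil, List.prod_cons, List.prod_nil, mul_one, mul_inv_rev,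
    Equiv.swap_inv, Equiv.Perm.mul_apply]

lemma pos_ne {m : ℕ} (B : BraidProjection m) (t : ℕ) {i j : Fin (m + 1)} (h : i ≠ j) :
    pos B t i ≠ pos B t j := fun h' => h ((arrangement (B.take t))⁻¹.injective h')

lemma crosses_iff {m : ℕ} (B : BraidProjection m) (t : ℕ) (p : Fin m) (h : B[t]? = some p)
    (i j : Fin (m + 1)) : Crosses B t i j ↔
      ((pos B t i = p.castSucc ∧ pos B t j = p.succ) ∨
        (pos B t j = p.castSucc ∧ pos B t i = p.succ)) := by
  unfold Crosses pos
  have e : ∀ (q s : Fin (m + 1)), arrangement (B.take t) q = s ↔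
      (arrangement (B.take t))⁻¹ s = q := by
    intro q s
    rw [Equiv.Perm.inv_eq_iff_eq]
    exact eq_comm
  constructor
  · rintro ⟨p', hp', h'⟩
    have : p' = p := by
      rw [h] at hp'
      exact (Option.some_injective _ hp').symm
    subst this
    simpa only [e] using h'
  · intro h'
    refine ⟨p, h, ?_⟩
    simpa only [e] using h'

lemma swap_lt {m : ℕ} (p : Fin m) (x y : Fin (m + 1)) (hxy : x ≠ y) :
    (Equiv.swap p.castSucc p.succ y < Equiv.swap p.castSucc p.succ x) ↔
      (if (x = p.castSucc ∧ y = p.succ) ∨ (y = p.castSucc ∧ x = p.succ) then ¬ (y < x)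
        else y < x) := by
  have hx : x.val ≠ y.val := fun h => hxy (Fin.ext h)
  have ha : p.castSucc.val = p.val := rfl
  have hb : p.succ.val = p.val + 1 := rfl
  have key : ∀ z : Fin (m + 1), (Equiv.swap p.castSucc p.succ z).val =
      if z.val = p.val then p.val + 1 else if z.val = p.val + 1 then p.val else z.val := by
    intro z
    rw [Equiv.swap_apply_def]
    simp only [Fin.ext_iff, ha, hb]
    split_ifs <;> rfl
  simp only [Fin.lt_def, Fin.ext_iff, ha, hb, key]
  split_ifs <;> omega

open Classical in
/-- number of crossings of `i` and `j` among the first `t` -/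
noncomputable def cnt {m : ℕ} (B : BraidProjection m) (i j : Fin (m + 1)) (t : ℕ) : ℕ :=
  ((Finset.range t).filter fun s => Crosses B s i j).card

open Classical in
lemma cnt_succ {m : ℕ} (B : BraidProjection m) (i j : Fin (m + 1)) (t : ℕ) :
    cnt B i j (t + 1) = cnt B i j t + (if Crosses B t i j then 1 else 0) := by
  unfold cnt
  rw [Finset.range_add_one, Finset.filter_insert]
  split_ifs with h
  · rw [Finset.card_insert_of_notMem (by simp)]
  · rw [add_zero]

lemma cnt_zero {m : ℕ} (B : BraidProjection m) (i j : Fin (m + 1)) : cnt B i j 0 = 0 := by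
  classical
  unfold cnt
  rw [Finset.range_zero, Finset.filter_empty, Finset.card_empty]

lemma cnt_mono {m : ℕ} (B : BraidProjection m) (i j : Fin (m + 1)) {s t : ℕ} (h : s ≤ t) :
    cnt B i j s ≤ cnt B i j t := by
  classical
  unfold cnt
  apply Finset.card_le_card
  apply Finset.filter_subset_filter
  exact Finset.range_mono h

/-- strands `i < j` are in inverted order iff they have crossed an odd number of times -/
lemma inv_iff {m : ℕ} (B : BraidProjection m) {i j : Fin (m + 1)} (hij : i < j) :
    ∀ t, t ≤ B.length → (pos B t j < pos B t i ↔ Odd (cnt B i j t)) := by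
  intro t
  induction t with
  | zero =>
    intro _
    rw [pos_zero, pos_zero]
    rw [cnt_zero]
    constructor
    · intro h; exact absurd h (not_lt.mpr hij.le)
    · intro h; exact absurd h (by decide)
  | succ t ih =>
    intro ht
    have ih' := ih (by omega)
    obtain ⟨p, hp⟩ : ∃ p, B[t]? = some p := ⟨B[t], List.getElem?_eq_getElem (by omega)⟩
    rw [pos_succ B t p hp, pos_succ B t p hp, swap_lt p _ _ (pos_ne B t hij.ne), cnt_succ]
    by_cases hc : Crosses B t i j
    · have hc' := (crosses_iff B t p hp i j).1 hc
      rw [if_pos hc', if_pos hc, ih', Nat.odd_add_one]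
    · have hc' := fun h => hc ((crosses_iff B t p hp i j).2 h)
      rw [if_neg hc', if_neg hc, add_zero, ih']

/-- the pairs of strands that never cross -/
def Z : List (ℕ × ℕ) :=
  [(0, 4), (0, 5), (0, 6), (0, 10), (0, 11),
   (1, 3), (1, 5), (1, 7), (1, 9), (1, 11),
   (2, 3), (2, 4), (2, 8), (2, 9), (2, 10),
   (3, 9), (4, 10), (5, 11),
   (6, 10), (6, 11), (7, 9), (7, 11), (8, 9), (8, 10)]

/-- The entries: `0` on the diagonal and on the pairs in `Z`, and `2` elsewhere. -/
def f0 (i j : Fin 12) : ℕ :=
  if i = j ∨ (i.val, j.val) ∈ Z ∨ (j.val, i.val) ∈ Z then 0 else 2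

/-- The matrix with entries `f0 i j`. -/
def M0 : Matrix (Fin 12) (Fin 12) ℕ := Matrix.of f0

lemma f0_symm : ∀ i j : Fin 12, f0 j i = f0 i j := by decide +kernel
lemma f0_even : ∀ i j : Fin 12, Even (f0 i j) := by decide +kernel
lemma f0_diag : ∀ i : Fin 12, f0 i i = 0 := by decide +kernel
lemma f0_trans : ∀ i j k : Fin 12, i < j → j < k → f0 i j = 0 → f0 j k = 0 → f0 i k = 0 := by
  decide +kernel

/-- There is a symmetric even T0 matrix of size `12` with entries in `{0, 2}` that is not the CN
matrix of any braid projection, pure or not. -/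
theorem result : ∃ M : Matrix (Fin 12) (Fin 12) ℕ,
    M.IsSymm ∧ (∀ i j, Even (M i j)) ∧ IsT0 M ∧ ∀ B : BraidProjection 11, CN B ≠ M := by
  refine ⟨M0, ?_, ?_, ⟨?_, ?_⟩, ?_⟩
  · ext i j
    exact f0_symm i j
  · exact f0_even
  · exact f0_diag
  · exact f0_trans
  · intro B hB
    have hcn : ∀ i j, cnt B i j B.length = f0 i j := by
      intro i j
      have h := congrFun (congrFun hB i) j
      exact h
    have hcomp : ∀ t ≤ B.length, ∀ i j : Fin 12, i < j → f0 i j = 0 → pos B t i < pos B t j := by
      intro t ht i j hij h0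
      have h1 : cnt B i j t = 0 := by
        have := cnt_mono B i j ht
        rw [hcn, h0] at this
        omega
      have h2 := inv_iff B hij t ht
      rw [h1] at h2
      have h3 : ¬ (pos B t j < pos B t i) := fun h => absurd (h2.1 h) (by decide)
      exact lt_of_le_of_ne (not_lt.1 h3) (pos_ne B t hij.ne)
    have hex : ∀ i j : Fin 12, i < j → f0 i j = 2 → ∃ t ≤ B.length, pos B t j < pos B t i := by
      intro i j hij h2
      have hL := hcn i j
      rw [h2] at hL
      -- first time at which the count is positive
      have hex1 : ∃ t, 1 ≤ cnt B i j t := ⟨B.length, by omega⟩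
      classical
      have hf := Nat.find_spec hex1
      have hmin := fun s (hs : s < Nat.find hex1) => Nat.find_min hex1 hs
      have hle : Nat.find hex1 ≤ B.length := Nat.find_min' hex1 (by omega)
      generalize Nat.find hex1 = t at hf hmin hle
      have hc : cnt B i j t = 1 := by
        cases t with
        | zero => rw [cnt_zero] at hf; omega
        | succ s =>
          have := hmin s (by omega)
          rw [cnt_succ] at hf ⊢
          split_ifs at hf ⊢ <;> omega
      refine ⟨t, hle, (inv_iff B hij t hle).2 ?_⟩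
      rw [hc]; decide
    have hconv : ∀ i j : Fin 12, i < j → f0 i j = 2 → ∀ t₁ t₂ t₃, t₁ ≤ t₂ → t₂ ≤ t₃ →
        t₃ ≤ B.length → pos B t₁ j < pos B t₁ i → pos B t₃ j < pos B t₃ i →
        pos B t₂ j < pos B t₂ i := by
      intro i j hij h2 t₁ t₂ t₃ h12 h23 h3 hi1 hi3
      have hL := hcn i j
      rw [h2] at hL
      have o1 := (inv_iff B hij t₁ (by omega)).1 hi1
      have o3 := (inv_iff B hij t₃ h3).1 hi3
      have m12 := cnt_mono B i j h12
      have m23 := cnt_mono B i j h23
      have m3 := cnt_mono B i j h3
      rw [hL] at m3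
      obtain ⟨k1, hk1⟩ := o1
      obtain ⟨k3, hk3⟩ := o3
      have hc : cnt B i j t₂ = 1 := by omega
      rw [inv_iff B hij t₂ (by omega), hc]
      decide
    obtain ⟨tA, hA, iA⟩ := hex 0 9 (by decide) (by decide)
    obtain ⟨tB, hB', iB⟩ := hex 1 10 (by decide) (by decide)
    obtain ⟨tC, hC, iC⟩ := hex 2 11 (by decide) (by decide)
    have lt := fun (t : ℕ) (ht : t ≤ B.length) (i j : Fin 12) (h : i < j) (h0 : f0 i j = 0) =>
      hcomp t ht i j h h0
    -- at tA
    have A3 : pos B tA 8 < pos B tA 5 := ((lt tA hA 8 9 (by decide) (by decide)).trans iA).trans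
      (lt tA hA 0 5 (by decide) (by decide))
    have A2 : pos B tA 7 < pos B tA 4 := ((lt tA hA 7 9 (by decide) (by decide)).trans iA).trans
      (lt tA hA 0 4 (by decide) (by decide))
    have A1 : pos B tA 3 < pos B tA 6 := ((lt tA hA 3 9 (by decide) (by decide)).trans iA).trans
      (lt tA hA 0 6 (by decide) (by decide))
    -- at tB
    have B3 : pos B tB 8 < pos B tB 5 := ((lt tB hB' 8 10 (by decide) (by decide)).trans iB).trans
      (lt tB hB' 1 5 (by decide) (by decide))
    have B1 : pos B tB 6 < pos B tB 3 := ((lt tB hB' 6 10 (by decide) (by decide)).trans iB).trans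
      (lt tB hB' 1 3 (by decide) (by decide))
    have B2 : pos B tB 4 < pos B tB 7 := ((lt tB hB' 4 10 (by decide) (by decide)).trans iB).trans
      (lt tB hB' 1 7 (by decide) (by decide))
    -- at tC
    have C1 : pos B tC 6 < pos B tC 3 := ((lt tC hC 6 11 (by decide) (by decide)).trans iC).trans
      (lt tC hC 2 3 (by decide) (by decide))
    have C2 : pos B tC 7 < pos B tC 4 := ((lt tC hC 7 11 (by decide) (by decide)).trans iC).trans
      (lt tC hC 2 4 (by decide) (by decide))
    have C3 : pos B tC 5 < pos B tC 8 := ((lt tC hC 5 11 (by decide) (by decide)).trans iC).trans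
      (lt tC hC 2 8 (by decide) (by decide))
    have c1 := hconv 3 6 (by decide) (by decide)
    have c2 := hconv 4 7 (by decide) (by decide)
    have c3 := hconv 5 8 (by decide) (by decide)
    rcases le_total tA tB with hab | hab <;> rcases le_total tB tC with hbc | hbc <;>
      rcases le_total tA tC with hac | hac
    · exact absurd (c2 tA tB tC hab hbc hC A2 C2) (not_lt.2 B2.le)
    · exact absurd (c2 tA tB tC hab hbc hC A2 C2) (not_lt.2 B2.le)
    · exact absurd (c3 tA tC tB hac hbc hB' A3 B3) (not_lt.2 C3.le)
    · exact absurd (c1 tC tA tB hac hab hB' C1 B1) (not_lt.2 A1.le)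
    · exact absurd (c1 tB tA tC hab hac hC B1 C1) (not_lt.2 A1.le)
    · exact absurd (c3 tB tC tA hbc hac hA B3 A3) (not_lt.2 C3.le)
    · exact absurd (c2 tC tB tA hbc hab hA C2 A2) (not_lt.2 B2.le)
    · exact absurd (c2 tC tB tA hbc hab hA C2 A2) (not_lt.2 B2.le)

end Pool.Agent.Results.MP_550572_gt.UnrealizableMatrix
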